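import Pool.Agent.H.MP_42cda2_nt.Aut

namespace Pool.Agent.Results.MP_42cda2_nt.Yes

open Pool.Agent.H.MP_42cda2_nt

/-- property (P) -/
def PropP (a b c : ℕ) : Prop :=
  ∀ n : ℕ, 0 < n → ∃ x y z w k : ℕ,
    n ^ 2 = x ^ 2 + y ^ 2 + z ^ 2 + w ^ 2 ∧ a * x + b * y + c * z = 4 ^ k

theorem sw1 {a b c : ℕ} (h : PropP a b c) : PropP b a c := fun n hn => by
  obtain ⟨x, y, z, w, k, h1, h2⟩ := h n hn
  exact ⟨y, x, z, w, k, by linarith, by linarith⟩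

theorem sw2 {a b c : ℕ} (h : PropP a b c) : PropP a c b := fun n hn => by
  obtain ⟨x, y, z, w, k, h1, h2⟩ := h n hn
  exact ⟨x, z, y, w, k, by linarith, by linarith⟩

theorem result (a b c : ℕ) (ha : 0 < a) (hb : 0 < b) (hc : 0 < c)
    (hg : Squarefree (Nat.gcd a (Nat.gcd b c))) (h : PropP a b c) :
    ({a, b, c} : Multiset ℕ) = {1, 2, 3} := by
  have h4 : ¬ (a % 4 = 0 ∧ b % 4 = 0 ∧ c % 4 = 0) := fun ⟨h1, h2, h3⟩ => by
    have := hg 2 (Nat.dvd_gcd (by omega) (Nat.dvd_gcd (by omega) (by omega)))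
    simp at this
  rcases le_total (a % 4) (b % 4) with h1 | h1 <;> rcases le_total (b % 4) (c % 4) with h2 | h2 <;>
    rcases le_total (a % 4) (c % 4) with h3 | h3
  · obtain ⟨rfl, rfl, rfl⟩ := core ha hb hc (by omega) h1 h2 h; decide
  · obtain ⟨rfl, rfl, rfl⟩ := core ha hb hc (by omega) h1 h2 h; decide
  · obtain ⟨rfl, rfl, rfl⟩ := core ha hc hb (by omega) h3 h2 (sw2 h); decide
  · obtain ⟨rfl, rfl, rfl⟩ := core hc ha hb (by omega) h3 h1 (sw1 (sw2 h)); decide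
  · obtain ⟨rfl, rfl, rfl⟩ := core hb ha hc (by omega) h1 h3 (sw1 h); decide
  · obtain ⟨rfl, rfl, rfl⟩ := core hb hc ha (by omega) h2 h3 (sw2 (sw1 h)); decide
  · obtain ⟨rfl, rfl, rfl⟩ := core hc hb ha (by omega) h2 h1 (sw1 (sw2 (sw1 h))); decide
  · obtain ⟨rfl, rfl, rfl⟩ := core hc hb ha (by omega) h2 h1 (sw1 (sw2 (sw1 h))); decide

end Pool.Agent.Results.MP_42cda2_nt.Yes
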